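import Pool.Agent.T9h7.RE.Spec4

/-!
Tight refutations have two wide clauses at the same time (piece CORC).
-/

set_option autoImplicit false
open Filter

namespace Pool.Agent.T9h66.RE

open Pool.Agent.T9h7.RD Pool.Agent.T9h7.RE

theorem log2 {n : ℕ} (hn2 : 2 ≤ n) : Real.log ((n : ℝ) + 2) ≤ 2 * Real.log n := by
  have h2 : (2 : ℝ) ≤ (n : ℝ) := by exact_mod_cast hn2
  have : (2 : ℝ) * Real.log n = Real.log ((n : ℝ) ^ 2) := by
    rw [Real.log_pow]; norm_num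
  rw [this]
  apply Real.log_le_log (by linarith)
  nlinarith

theorem large (K : ℕ) : ∃ n0 : ℕ, ∀ n ≥ n0, 16 * (K : ℝ) ≤ Real.log n ∧ 2 ≤ n := by
  refine ⟨⌈Real.exp (16 * (K : ℝ))⌉₊ + 2, ?_⟩
  intro n hn
  refine ⟨?_, by omega⟩
  have h1 : Real.exp (16 * (K : ℝ)) ≤ (n : ℝ) := by
    refine (Nat.le_ceil _).trans ?_
    exact_mod_cast (by omega : ⌈Real.exp (16 * (K : ℝ))⌉₊ ≤ n)
  have h2 : (0 : ℝ) < (n : ℝ) := lt_of_lt_of_le (Real.exp_pos _) h1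
  exact (Real.le_log_iff_exp_le h2).mpr h1

/-- **CORC** -/
theorem sCorC : SCorC := by
  intro hmain F D hD hlarge c
  obtain ⟨K, hK⟩ := hmain
  obtain ⟨n0, hn0⟩ := large K
  have hD1 := (hlarge (2 * (2 * c + 4) + 3)).eventually_gt_atTop (8 * (K : ℝ) + 1)
  have hlogev : ∀ᶠ n : ℕ in atTop, 1 ≤ Real.log (n : ℝ) :=
    (Real.tendsto_log_atTop.comp tendsto_natCast_atTop_atTop).eventually_ge_atTop 1
  filter_upwards [hD1, eventually_ge_atTop n0, hlogev] with n hDn hn hlog1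
  obtain ⟨hn1, hn2⟩ := hn0 n hn
  intro τ M hM hsp
  obtain ⟨u0, hu0, hmax⟩ := Finset.exists_max_image (Finset.range (τ + 1))
    (fun u => ∑ C ∈ M u, C.card) ⟨0, by simp⟩
  rw [Finset.mem_range] at hu0
  obtain ⟨S, hS⟩ : ∃ S : ℕ, S = ∑ C ∈ M u0, C.card := ⟨_, rfl⟩
  have hs : ∀ t ≤ τ, ∑ C ∈ M t, C.card ≤ S := fun t ht => by
    rw [hS]
    exact hmax t (Finset.mem_range.mpr (by omega))
  obtain ⟨l, hl⟩ : ∃ l : ℝ, l = Real.log (n : ℝ) := ⟨_, rfl⟩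
  rw [← hl] at hlog1 hDn hn1 hsp
  have hl0 : 0 < l := by linarith
  obtain ⟨L, hL⟩ : ∃ L : ℝ, L = l ^ (2 * c + 4) := ⟨_, rfl⟩
  have hL1 : 1 ≤ L := by rw [hL]; exact one_le_pow₀ hlog1
  have hLpos : 0 < L := by linarith
  have hlog3 : (K : ℝ) * (Real.log ((n : ℝ) + 2)) ^ 3 ≤ 8 * (K : ℝ) * l ^ 3 := by
    have h1 : Real.log ((n : ℝ) + 2) ≤ 2 * l := by rw [hl]; exact log2 hn2
    have h0 : 0 ≤ Real.log ((n : ℝ) + 2) := Real.log_nonneg (by
      have : (2 : ℝ) ≤ (n : ℝ) := by exact_mod_cast hn2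
      linarith)
    calc (K : ℝ) * (Real.log ((n : ℝ) + 2)) ^ 3 ≤ (K : ℝ) * (2 * l) ^ 3 :=
          mul_le_mul_of_nonneg_left (pow_le_pow_left₀ h0 h1 3) (Nat.cast_nonneg K)
      _ = 8 * (K : ℝ) * l ^ 3 := by ring
  have hK0 : (0 : ℝ) ≤ (K : ℝ) := Nat.cast_nonneg K
  have hD2 : 8 * (K : ℝ) * (L ^ 2 * l ^ 3) < (D n : ℝ) := by
    rw [lt_div_iff₀ (by positivity)] at hDn
    have h1 : l ^ (2 * (2 * c + 4) + 3) = L ^ 2 * l ^ 3 := by
      rw [hL, ← pow_mul, ← pow_add]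
      congr 1
      ring
    rw [h1] at hDn
    have : 0 < L ^ 2 * l ^ 3 := by positivity
    nlinarith
  by_contra hcon
  push Not at hcon
  rw [← hl, ← hL] at hcon
  -- two distinct clauses of a configuration cannot both be wide
  have hone : ∀ w : ℕ, (S : ℝ) / L < (w : ℝ) + 1 → ∀ t < τ, One w (M t) := by
    intro w hw t ht C hC C' hC' h1 h2
    by_contra hne
    obtain ⟨u, hu, h⟩ := hcon t ht C hC C' hC' hne
    have hbig : ∀ x : ℕ, w < x → (S : ℝ) ≤ (x : ℝ) * L := by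
      intro x hx
      have hx' : (w : ℝ) + 1 ≤ (x : ℝ) := by exact_mod_cast hx
      have := hw.trans_le hx'
      rw [div_lt_iff₀ hLpos] at this
      exact this.le
    have hu' : ((∑ C'' ∈ M u, C''.card : ℕ) : ℝ) ≤ (S : ℝ) := by exact_mod_cast hs u hu
    have h3 := h (hu'.trans (hbig _ h1))
    have h4 := hu'.trans (hbig _ h2)
    linarith
  rcases lt_or_ge ((S : ℝ) / L) 1 with hsmall | hbigS
  · -- the memory is polylogarithmic
    have hS1 : (S : ℝ) ≤ L := by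
      rw [div_lt_one hLpos] at hsmall
      exact hsmall.le
    have hb := hK n (F n) (D n) S (max S 1) τ M (hD n) hM (le_max_right _ _) hs
      (fun t ht => Or.inl (hone _ (by
        rw [div_lt_one hLpos] at hsmall
        have h5 : (S : ℝ) / L < 1 := by rwa [div_lt_one hLpos]
        have h6 : (0 : ℝ) ≤ ((max S 1 : ℕ) : ℝ) := Nat.cast_nonneg _
        linarith) t ht))
    have hmx : ((max S 1 : ℕ) : ℝ) ≤ L := by
      rw [Nat.cast_max, Nat.cast_one]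
      exact max_le hS1 hL1
    have h7 : (D n : ℝ) ≤ 8 * (K : ℝ) * (L ^ 2 * l ^ 3) := by
      calc (D n : ℝ) ≤ (K : ℝ) * (S : ℝ) * ((max S 1 : ℕ) : ℝ) *
            (Real.log ((n : ℝ) + 2)) ^ 3 := hb
        _ = ((S : ℝ) * ((max S 1 : ℕ) : ℝ)) * ((K : ℝ) * (Real.log ((n : ℝ) + 2)) ^ 3) := by ring
        _ ≤ ((S : ℝ) * ((max S 1 : ℕ) : ℝ)) * (8 * (K : ℝ) * l ^ 3) :=
            mul_le_mul_of_nonneg_left hlog3 (by positivity)
        _ ≤ (L * L) * (8 * (K : ℝ) * l ^ 3) := by gcongr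
        _ = 8 * (K : ℝ) * (L ^ 2 * l ^ 3) := by ring
    linarith
  · obtain ⟨w, hw⟩ : ∃ w : ℕ, w = ⌊(S : ℝ) / L⌋₊ := ⟨_, rfl⟩
    have hw1 : 1 ≤ w := by
      rw [hw]
      exact Nat.le_floor (by simpa using hbigS)
    have hwS : (w : ℝ) * L ≤ (S : ℝ) := by
      have : (w : ℝ) ≤ (S : ℝ) / L := by
        rw [hw]
        exact Nat.floor_le (by positivity)
      rwa [le_div_iff₀ hLpos] at this
    have hSpos : (0 : ℝ) < (S : ℝ) := by
      have : (1 : ℝ) * L ≤ (S : ℝ) := by rwa [le_div_iff₀ hLpos] at hbigS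
      linarith
    have hb := hK n (F n) (D n) S w τ M (hD n) hM hw1 hs
      (fun t ht => Or.inl (hone w (by rw [hw]; exact Nat.lt_floor_add_one _) t ht))
    have hSD : (S : ℝ) ≤ Real.sqrt (D n) * l ^ c := by
      rw [hS]
      exact hsp u0 (by omega)
    have hsq : (S : ℝ) ^ 2 ≤ (D n : ℝ) * l ^ (2 * c) := by
      have h5 := pow_le_pow_left₀ hSpos.le hSD 2
      refine h5.trans (le_of_eq ?_)
      rw [mul_pow, Real.sq_sqrt (Nat.cast_nonneg (D n)), ← pow_mul, mul_comm c 2]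
    have hK8 : 8 * (K : ℝ) * l ^ 3 ≤ l ^ 4 / 2 := by
      have : 8 * (K : ℝ) ≤ l / 2 := by linarith
      calc 8 * (K : ℝ) * l ^ 3 ≤ l / 2 * l ^ 3 := by gcongr
        _ = l ^ 4 / 2 := by ring
    have hfin : (S : ℝ) ^ 2 ≤ (S : ℝ) ^ 2 / 2 := by
      calc (S : ℝ) ^ 2 ≤ (D n : ℝ) * l ^ (2 * c) := hsq
        _ ≤ ((K : ℝ) * (S : ℝ) * (w : ℝ) * (Real.log ((n : ℝ) + 2)) ^ 3) * l ^ (2 * c) := by
            gcongr
        _ = ((S : ℝ) * (w : ℝ) * l ^ (2 * c)) * ((K : ℝ) * (Real.log ((n : ℝ) + 2)) ^ 3) := by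
            ring
        _ ≤ ((S : ℝ) * (w : ℝ) * l ^ (2 * c)) * (l ^ 4 / 2) :=
            mul_le_mul_of_nonneg_left (hlog3.trans hK8) (by positivity)
        _ = (S : ℝ) * ((w : ℝ) * L) / 2 := by
            rw [hL, pow_add]
            ring
        _ ≤ (S : ℝ) * (S : ℝ) / 2 := by gcongr
        _ = (S : ℝ) ^ 2 / 2 := by ring
    have : 0 < (S : ℝ) ^ 2 := by positivity
    linarith

end Pool.Agent.T9h66.RE
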